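import Pool.Agent.Helper89.OS.St1

set_option autoImplicit false

namespace Pool.Agent.Helper33.OS

open Matrix ComplexConjugate Pool.Agent.Helper94.YF Pool.Agent.Helper94.YG Pool.Agent.Helper89.OS

theorem hENT : StENT := by
  intro hFUS hDUA I _ _ Z c
  obtain ⟨hU, hthL, htadd, ht0, -, hto, -, hLoN, hLosym, -, -⟩ := hFUS hDUA I Z
  -- entries of rho (s2 c)
  have hent : ∀ i k, Z.rho (s2 c) i k = Z.tw (-c) i * Z.rho (Lo c) i k * Z.tw (-c) k := by
    intro i k
    unfold s2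
    rw [map_mul, map_mul, hU, Matrix.mul_diagonal, Matrix.diagonal_mul]
  refine ⟨fun i k => ?_, ?_⟩
  · rw [hent, hent, hLosym c i k]; ring
  · intro q Y hY i k
    have hinv : ∀ j, Z.tw c j * Z.tw (-c) j = 1 := by
      intro j
      rw [← htadd, add_neg_cancel, ht0]
    have hq : ∀ l, (q : ℂ) * Z.rho (Lo c) l Z.o = Z.tw c l * (Y l : ℂ) := by
      intro l
      rw [hY l, hent, hto (-c)]
      linear_combination (-(q : ℂ) * Z.rho (Lo c) l Z.o) * hinv l
    have htw : ∀ z j, IsIntegral ℤ (Z.tw z j) := by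
      intro z j
      have hth : IsIntegral ℤ (Z.th j) := by
        refine IsIntegral.of_pow Z.L_pos ?_
        rw [hthL j]
        exact isIntegral_one
      exact hth.pow _
    have hval : (q : ℂ) * Z.rho (s2 c) i k =
        Z.tw (-c) i * Z.tw (-c) k * ∑ l, (Z.N i (Z.st k) l : ℂ) * (Z.tw c l * (Y l : ℂ)) := by
      rw [hent, hLoN c i k]
      have : ∑ l, (Z.N i (Z.st k) l : ℂ) * (Z.tw c l * (Y l : ℂ)) =
          (q : ℂ) * ∑ l, (Z.N i (Z.st k) l : ℂ) * Z.rho (Lo c) l Z.o := by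
        rw [Finset.mul_sum]
        refine Finset.sum_congr rfl fun l _ => ?_
        rw [← hq l]; ring
      rw [this]; ring
    have h1 : IsIntegral ℤ ((q : ℂ) * Z.rho (s2 c) i k) := by
      rw [hval]
      refine ((htw _ _).mul (htw _ _)).mul ?_
      refine IsIntegral.sum _ fun l _ => ?_
      refine IsIntegral.mul ?_ ((htw _ _).mul ?_)
      · exact_mod_cast (isIntegral_algebraMap (R := ℤ) (A := ℂ) (x := (Z.N i (Z.st k) l : ℤ)))
      · exact isIntegral_algebraMap (R := ℤ) (A := ℂ) (x := Y l)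
    refine ⟨h1, ?_⟩
    have h2 := h1.map ((starRingEnd ℂ : ℂ →+* ℂ).toIntAlgHom)
    have h3 : ((starRingEnd ℂ : ℂ →+* ℂ).toIntAlgHom) ((q : ℂ) * Z.rho (s2 c) i k) =
        (q : ℂ) * conj (Z.rho (s2 c) i k) := by
      show (starRingEnd ℂ) ((q : ℂ) * Z.rho (s2 c) i k) = _
      rw [map_mul, Complex.conj_natCast]
    rw [h3] at h2
    exact h2

end Pool.Agent.Helper33.OS
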